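import Pool.Agent.N437.QR.Stm

/-!
# QR/AVG: averages over functions, marginals and independence
-/

set_option autoImplicit false

namespace Pool.Agent.N427.QR

open Finset Pool.Agent.N437.QR

open Classical in
/-- split the functions on `α` into the part on the range of `f` and the rest -/
noncomputable def spl {α Ω V : Type} (f : V → α) (hf : Function.Injective f) :
    (α → Ω) ≃ (V → Ω) × ({a : α // a ∉ Set.range f} → Ω) where
  toFun x := (x ∘ f, fun a => x a)
  invFun p := fun a => if h : a ∈ Set.range f then p.1 h.choose else p.2 ⟨a, h⟩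
  left_inv x := by
    funext a
    by_cases h : a ∈ Set.range f
    · simp only [dif_pos h, Function.comp_apply]
      rw [h.choose_spec]
    · simp only [dif_neg h]
  right_inv p := by
    obtain ⟨y, z⟩ := p
    refine Prod.ext ?_ ?_
    · funext v
      have h : f v ∈ Set.range f := ⟨v, rfl⟩
      simp only [Function.comp_apply, dif_pos h]
      rw [hf h.choose_spec]
    · funext a
      simp only [dif_neg a.2]

theorem marg {α Ω : Type} [Fintype α] [DecidableEq α] [Fintype Ω] [Nonempty Ω] {V : Type}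
    [Fintype V] [DecidableEq V] (f : V → α) (h : (V → Ω) → ℝ) (hf : Function.Injective f) :
    Av (fun x : α → Ω => h (x ∘ f)) = Av h := by
  classical
  unfold Av
  have hs : ∑ x : α → Ω, h (x ∘ f) =
      (Fintype.card ({a : α // a ∉ Set.range f} → Ω) : ℝ) * ∑ y : V → Ω, h y := by
    rw [Fintype.sum_equiv (spl f hf) (fun x : α → Ω => h (x ∘ f)) (fun p => h p.1) (fun x => rfl),
      Fintype.sum_prod_type]
    simp only [sum_const, card_univ, nsmul_eq_mul]
    rw [← mul_sum]
  have hc : (Fintype.card (α → Ω) : ℝ) =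
      Fintype.card (V → Ω) * Fintype.card ({a : α // a ∉ Set.range f} → Ω) := by
    rw [Fintype.card_congr (spl (Ω := Ω) f hf), Fintype.card_prod, Nat.cast_mul]
  have h1 : (Fintype.card (V → Ω) : ℝ) ≠ 0 := by
    exact_mod_cast Fintype.card_ne_zero
  have h2 : (Fintype.card ({a : α // a ∉ Set.range f} → Ω) : ℝ) ≠ 0 := by
    exact_mod_cast Fintype.card_ne_zero
  rw [hs, hc]
  field_simp

/-- **QR/AVG** -/
theorem t_AVG : S_AVG := by
  intro α Ω _ _ _ _ V _ _
  refine ⟨fun f h hf => marg f h hf, fun f g h k hf hg hfg => ?_⟩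
  have h1 := marg (Ω := Ω) (Sum.elim f g)
    (fun z : V ⊕ V → Ω => h (z ∘ Sum.inl) * k (z ∘ Sum.inr)) (by
      rw [Sum.elim_injective]
      exact ⟨hf, hg, hfg⟩)
  have h2 : (fun x : α → Ω => h (x ∘ f) * k (x ∘ g)) = fun x : α → Ω =>
      (fun z : V ⊕ V → Ω => h (z ∘ Sum.inl) * k (z ∘ Sum.inr)) (x ∘ Sum.elim f g) := by
    funext x
    rfl
  rw [h2, h1]
  unfold Av
  have hs : ∑ z : V ⊕ V → Ω, h (z ∘ Sum.inl) * k (z ∘ Sum.inr) =
      (∑ y : V → Ω, h y) * ∑ y : V → Ω, k y := by
    rw [Fintype.sum_equiv (Equiv.sumArrowEquivProdArrow V V Ω)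
      (fun z : V ⊕ V → Ω => h (z ∘ Sum.inl) * k (z ∘ Sum.inr)) (fun p => h p.1 * k p.2)
      (fun z => rfl), Fintype.sum_prod_type, sum_mul_sum]
  have hc : (Fintype.card (V ⊕ V → Ω) : ℝ) = Fintype.card (V → Ω) * Fintype.card (V → Ω) := by
    rw [Fintype.card_congr (Equiv.sumArrowEquivProdArrow V V Ω), Fintype.card_prod, Nat.cast_mul]
  rw [hs, hc, mul_inv]
  ring

end Pool.Agent.N427.QR
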